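import Pool.Agent.helper55.VD.SpecE0

set_option autoImplicit false

open scoped ENNReal ComplexConjugate
open MeasureTheory Filter Set

namespace Pool.Agent.VDA

open Pool.Agent.VQ (PS KZ cmZ perZ)
open Pool.Agent.RPQ (IsOp)

noncomputable section

/-- telescoping -/
theorem EAT_tel (J : ℕ → ℝ) (n : ℕ) (E : ℝ) (h : ∀ k < n, |J (k + 1) - J k| ≤ E) : ∀ k ≤ n, |J k - J 0| ≤ k * E := by
  intro k
  induction k with
  | zero => intro _; simp
  | succ k ih =>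
    intro hk
    have e1 := ih (by omega)
    have e2 := h k (by omega)
    have e3 : J (k + 1) - J 0 = (J (k + 1) - J k) + (J k - J 0) := by ring
    rw [e3]
    refine (abs_add_le _ _).trans ?_
    push_cast
    linarith

/-- the average -/
theorem EAT_avg (J : ℕ → ℝ) (n : ℕ) (E : ℝ) (hE : 0 ≤ E) (hn : 1 ≤ n) (h : ∀ k ≤ n, |J k - J 0| ≤ k * E) :
    |(n : ℝ)⁻¹ * ∑ k ∈ Finset.range n, J k - J 0| ≤ n * E := by
  have hn0 : (0 : ℝ) < n := by exact_mod_cast hn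
  have e : (n : ℝ)⁻¹ * ∑ k ∈ Finset.range n, J k - J 0 = (n : ℝ)⁻¹ * ∑ k ∈ Finset.range n, (J k - J 0) := by
    rw [Finset.sum_sub_distrib, Finset.sum_const, Finset.card_range, nsmul_eq_mul]
    field_simp
  rw [e, abs_mul, abs_of_pos (inv_pos.2 hn0), inv_mul_le_iff₀ hn0]
  refine (Finset.abs_sum_le_sum_abs _ _).trans ?_
  refine (Finset.sum_le_sum (g := fun _ => (n : ℝ) * E) fun k hk => ?_).trans (le_of_eq (by rw [Finset.sum_const, Finset.card_range, nsmul_eq_mul]))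
  have hk' := Finset.mem_range.1 hk
  exact (h k hk'.le).trans (mul_le_mul_of_nonneg_right (by exact_mod_cast hk'.le) hE)

theorem EAT_proof (hEAV : EAV_stmt) (hEAO : EAO_stmt) : EAT_stmt := by
  intro Γ _ Y _ _ m D d hPS K ε b w δ η Φ G n hS hw hεδ hδ hΦ hη hG hK hnY
  obtain ⟨hn0, hint, -⟩ := (hEAO Γ Y m D d hPS).2.2.1 Φ hΦ
  have hE : 0 ≤ (w * b + 11 * Real.sqrt δ) * nY m D Φ :=
    mul_nonneg (add_nonneg (mul_nonneg hw hS.b0) (mul_nonneg (by norm_num) (Real.sqrt_nonneg _))) hn0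
  have hst : ∀ k < n, |(∫ y in D, G (k + 1) y * ‖Φ y‖ ^ 2 ∂m) - ∫ y in D, G k y * ‖Φ y‖ ^ 2 ∂m| ≤ (w * b + 11 * Real.sqrt δ) * nY m D Φ := fun k hk =>
    hEAV Γ Y m D d hPS K ε b w δ η Φ (G k) (G (k + 1)) hS hw hεδ hδ hΦ hη (hG k) (hG (k + 1)) (hK k hk) hnY
  have h1 := EAT_tel (fun k => ∫ y in D, G k y * ‖Φ y‖ ^ 2 ∂m) n _ hst
  refine ⟨h1, fun hn => ?_⟩
  have h2 := EAT_avg (fun k => ∫ y in D, G k y * ‖Φ y‖ ^ 2 ∂m) n _ hE hn h1
  have hi : ∀ k, Integrable (fun y => G k y * ‖Φ y‖ ^ 2) (m.restrict D) := by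
    intro k
    refine Integrable.mono hint ((hG k).meas.aestronglyMeasurable.mul hint.aestronglyMeasurable) (Eventually.of_forall fun y => ?_)
    rw [norm_mul]
    refine (mul_le_mul_of_nonneg_right ?_ (norm_nonneg _)).trans (le_of_eq (one_mul _))
    rw [Real.norm_eq_abs]
    exact (hG k).bd y
  have h3 : (∫ y in D, ((n : ℝ)⁻¹ * ∑ k ∈ Finset.range n, G k y) * ‖Φ y‖ ^ 2 ∂m) = (n : ℝ)⁻¹ * ∑ k ∈ Finset.range n, ∫ y in D, G k y * ‖Φ y‖ ^ 2 ∂m := by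
    rw [← integral_finsetSum _ fun k _ => hi k, ← integral_const_mul]
    refine integral_congr_ae (Eventually.of_forall fun y => ?_)
    show ((n : ℝ)⁻¹ * ∑ k ∈ Finset.range n, G k y) * ‖Φ y‖ ^ 2 = (n : ℝ)⁻¹ * ∑ k ∈ Finset.range n, G k y * ‖Φ y‖ ^ 2
    rw [mul_assoc, Finset.sum_mul]
  rw [h3]
  exact h2

end

end Pool.Agent.VDA
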