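import Pool.Agent.helper55.VD.SpecE3

set_option autoImplicit false

open scoped ContDiff Topology InnerProductSpace ComplexConjugate ENNReal
open MeasureTheory Filter Set

namespace Pool.Agent.VD

open Pool.Agent.VQ (CH KZ PS perZ cmZ)

noncomputable section

theorem EEA_cnt {d : ℕ} {Γ : Type} [Group Γ] [MulAction Γ (V d)] {K : Set (V d)} (hK : FdK Γ K) : Countable Γ := by
  have h1 : (univ : Set Γ) ⊆ ⋃ n : ℕ, {γ : Γ | ∃ x ∈ Metric.closedBall (0 : V d) n, γ • x ∈ Metric.closedBall (0 : V d) n} := by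
    intro γ _
    obtain ⟨n, hn⟩ := exists_nat_ge ‖γ • (0 : V d)‖
    refine mem_iUnion.2 ⟨n, 0, ?_, ?_⟩
    · rw [mem_closedBall_zero_iff, norm_zero]
      exact Nat.cast_nonneg _
    · rw [mem_closedBall_zero_iff]
      exact hn
  have h2 : (univ : Set Γ).Countable := (countable_iUnion fun n : ℕ => (hK.proper _ (isCompact_closedBall (0 : V d) (n : ℝ))).countable).mono h1
  exact countable_univ_iff.1 h2

theorem EEA_num (L a c : ℝ) (hac : c < a) : ∃ R0 : ℝ, 1 ≤ R0 ∧ ∀ R : ℝ, R0 ≤ R → L * R ^ (-a) ≤ R ^ (-c) := by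
  have h1 := (tendsto_rpow_atTop (show 0 < a - c by linarith)).eventually_ge_atTop L
  obtain ⟨R1, hR1⟩ := Filter.eventually_atTop.1 h1
  refine ⟨max R1 1, le_max_right _ _, fun R hR => ?_⟩
  have hR0 : 0 < R := lt_of_lt_of_le one_pos ((le_max_right _ _).trans hR)
  have h2 := hR1 R ((le_max_left _ _).trans hR)
  calc L * R ^ (-a) ≤ R ^ (a - c) * R ^ (-a) := mul_le_mul_of_nonneg_right h2 (Real.rpow_nonneg hR0.le _)
    _ = R ^ (-c) := by
        rw [← Real.rpow_add hR0]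
        congr 1
        ring

theorem EEA_bd {E : Type} [NormedAddCommGroup E] [NormedSpace ℝ E] [FiniteDimensional ℝ E] (h : E → ℝ) (hh : ContDiff ℝ ∞ h) (N : ℕ) (r : ℝ) :
    ∃ L : ℝ, 0 ≤ L ∧ ∀ n ≤ N, ∀ x : E, ‖x‖ ≤ r → ‖iteratedFDeriv ℝ n h x‖ ≤ L := by
  have h1 : ∀ n : ℕ, ∃ L : ℝ, 0 ≤ L ∧ ∀ x : E, ‖x‖ ≤ r → ‖iteratedFDeriv ℝ n h x‖ ≤ L := by
    intro n
    have hc : Continuous (iteratedFDeriv ℝ n h) := hh.continuous_iteratedFDeriv (by exact_mod_cast le_top)
    obtain ⟨L, hL⟩ := (isCompact_closedBall (0 : E) r).exists_bound_of_continuousOn hc.continuousOn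
    exact ⟨max L 0, le_max_right _ _, fun x hx => (hL x (mem_closedBall_zero_iff.2 hx)).trans (le_max_left _ _)⟩
  choose L hL0 hL using h1
  refine ⟨∑ n ∈ Finset.range (N + 1), L n, Finset.sum_nonneg fun n _ => hL0 n, fun n hn x hx => (hL n x hx).trans ?_⟩
  exact Finset.single_le_sum (f := L) (fun n _ => hL0 n) (Finset.mem_range.2 (by omega))

/-- the average of integrals -/
theorem EEA_fub {Y : Type} [MeasurableSpace Y] (ν : Measure Y) [IsFiniteMeasure ν] (H : Y × ℝ → ℝ) (q : Y → ℝ) (J0 E B : ℝ) (hH : Measurable H) (hH1 : ∀ z, |H z| ≤ 1)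
    (hq : Measurable q) (hqB : ∀ y, |q y| ≤ B) (hE : ∀ s : ℝ, 0 ≤ s → s ≤ 1 → |(∫ y, H (y, s) * q y ∂ν) - J0| ≤ E) :
    |(∫ y, (∫ s in (0 : ℝ)..1, H (y, s)) * q y ∂ν) - J0| ≤ E := by
  have hB : ∀ z : Y × ℝ, ‖H z * q z.1‖ ≤ B := by
    intro z
    rw [norm_mul, Real.norm_eq_abs, Real.norm_eq_abs]
    calc |H z| * |q z.1| ≤ 1 * |q z.1| := mul_le_mul_of_nonneg_right (hH1 z) (abs_nonneg _)
      _ ≤ B := by
        rw [one_mul]
        exact hqB _
  have hint : Integrable (Function.uncurry fun (y : Y) (s : ℝ) => H (y, s) * q y) (ν.prod (volume.restrict (Ioc (0 : ℝ) 1))) := by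
    have hm : Measurable (Function.uncurry fun (y : Y) (s : ℝ) => H (y, s) * q y) := hH.mul (hq.comp measurable_fst)
    exact Integrable.of_bound hm.aestronglyMeasurable B (Eventually.of_forall fun z => hB z)
  have h1 : (∫ y, (∫ s in (0 : ℝ)..1, H (y, s)) * q y ∂ν) = ∫ s in (0 : ℝ)..1, ∫ y, H (y, s) * q y ∂ν := by
    rw [intervalIntegral.integral_of_le zero_le_one, ← integral_integral_swap hint]
    refine integral_congr_ae (Eventually.of_forall fun y => ?_)
    show (∫ s in (0 : ℝ)..1, H (y, s)) * q y = ∫ s in Ioc (0 : ℝ) 1, H (y, s) * q y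
    rw [intervalIntegral.integral_of_le zero_le_one, integral_mul_const]
  have h2 : IntervalIntegrable (fun s : ℝ => ∫ y, H (y, s) * q y ∂ν) volume 0 1 := by
    rw [intervalIntegrable_iff_integrableOn_Ioc_of_le zero_le_one]
    exact hint.integral_prod_right
  have h3 : (∫ s in (0 : ℝ)..1, ∫ y, H (y, s) * q y ∂ν) - J0 = ∫ s in (0 : ℝ)..1, ((∫ y, H (y, s) * q y ∂ν) - J0) := by
    rw [intervalIntegral.integral_sub h2 intervalIntegrable_const, intervalIntegral.integral_const, sub_zero, one_smul]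
  rw [h1, h3]
  have h4 := intervalIntegral.norm_integral_le_of_norm_le_const (a := (0 : ℝ)) (b := 1) (f := fun s : ℝ => (∫ y, H (y, s) * q y ∂ν) - J0) (C := E) fun s hs => by
    rw [uIoc_of_le zero_le_one] at hs
    exact hE s hs.1.le hs.2
  rw [sub_zero, abs_one, mul_one] at h4
  exact h4

theorem EEA_proof (hEEH : EEH_stmt) (hEES : EES_stmt) (hEYP : EYP_stmt) (hEE2 : EE2_stmt) : EEA_stmt := by
  intro d Γ _ _ K k B r0 χ hK hχ
  obtain ⟨CH, hCH, hEEH⟩ := hEEH d Γ K k B r0 hK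
  obtain ⟨CS, hCS, hEES⟩ := hEES d Γ K k B r0 χ hK hχ
  obtain ⟨CE, hCE, hEE2⟩ := hEE2 d Γ K k B r0 χ hK hχ
  have hcnt : Countable Γ := EEA_cnt hK
  refine ⟨max CH (max CS CE), hCH.trans (le_max_left _ _), ?_⟩
  intro ch A h hch hA hinv hsm h01
  obtain ⟨RH, -, hEEH⟩ := hEEH A (EAM0 hA hCH (le_max_left _ _))
  obtain ⟨N, RS, -, hEES⟩ := hEES ch A hch (EAM0 hA hCS ((le_max_left _ _).trans (le_max_right _ _)))
  obtain ⟨RE, -, hEE2⟩ := hEE2 ch A hch (EAM0 hA hCE ((le_max_right _ _).trans (le_max_right _ _)))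
  obtain ⟨L1, hL1, hb1⟩ := EEA_bd h hsm 1 CH
  obtain ⟨L2, hL2, hb2⟩ := EEA_bd h hsm N N
  obtain ⟨Ra, hRa, ha⟩ := EEA_num L1 (1 / 3) (1 / 4) (by norm_num)
  obtain ⟨Rb, hRb, hb⟩ := EEA_num (1 + L2) (1 / 250) (1 / 300) (by norm_num)
  refine ⟨max RH (max RS (max RE (max Ra Rb))), hRa.trans (le_trans (le_max_left Ra Rb) ((le_max_right _ _).trans ((le_max_right _ _).trans (le_max_right _ _)))), ?_⟩
  intro R F G Φ f u hR hF hO hu
  have r1 : RH ≤ R := (le_max_left _ _).trans hR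
  have r2 : RS ≤ R := (le_max_left _ _).trans ((le_max_right _ _).trans hR)
  have r3 : RE ≤ R := (le_max_left _ _).trans ((le_max_right _ _).trans ((le_max_right _ _).trans hR))
  have r4 : Ra ≤ R := (le_max_left _ _).trans ((le_max_right _ _).trans ((le_max_right _ _).trans ((le_max_right _ _).trans hR)))
  have r5 : Rb ≤ R := (le_max_right _ _).trans ((le_max_right _ _).trans ((le_max_right _ _).trans ((le_max_right _ _).trans hR)))
  have hfc : Continuous fun q : ℝ × P d => h (Φ q.1 q.2).1 := hsm.continuous.comp (continuous_fst.comp hO.flow.smooth.continuous)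
  have hcs : ∀ p : P d, Continuous fun s : ℝ => h (Φ s p).1 := fun p => hfc.comp (continuous_id.prodMk continuous_const)
  have hgc : ∀ j : ℕ, Continuous fun p : P d => gE Φ h j p := by
    intro j
    have h1 : Continuous (Function.uncurry fun (p : P d) (s : ℝ) => h (Φ (s + j) p).1) :=
      hfc.comp ((continuous_snd.add continuous_const).prodMk continuous_fst)
    exact intervalIntegral.continuous_parametric_intervalIntegral_of_continuous' h1 0 1
  have hm2 : Measurable fun y : YS Γ d => y.2 := by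
    let _ : MeasurableSpace Γ := ⊤
    exact (measurable_snd : Measurable (Prod.snd : Γ × P d → P d))
  have habs : ∀ x, |h x| ≤ 1 := fun x => by
    rw [abs_of_nonneg (h01 x).1]
    exact (h01 x).2
  refine ⟨fun p => ?_, fun j => ⟨(hgc j).measurable.comp hm2, fun y => ?_, fun γ y => rfl⟩, fun j y y' hj hst => ?_, ?_⟩
  · -- (1)
    have h1 : ∀ j : ℕ, gE Φ h j p = ∫ s in ((j : ℕ) : ℝ)..((j + 1 : ℕ) : ℝ), h (Φ s p).1 := by
      intro j
      unfold gE
      rw [intervalIntegral.integral_comp_add_right (fun s => h (Φ s p).1) (j : ℝ), zero_add]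
      push_cast
      rw [add_comm (1 : ℝ)]
    rw [Finset.sum_congr rfl fun j _ => h1 j, intervalIntegral.sum_integral_adjacent_intervals (a := fun j : ℕ => (j : ℝ)) fun j _ => (hcs p).intervalIntegrable _ _]
    unfold avP
    rw [Nat.cast_zero]
    have h2 : A.tu R = ((A.n R + 1 : ℕ) : ℝ) := by
      unfold Par.tu
      push_cast
      rfl
    rw [h2]
  · -- (2)
    have h1 := intervalIntegral.norm_integral_le_of_norm_le_const (a := (0 : ℝ)) (b := 1) (f := fun s : ℝ => h (Φ (s + j) y.2).1) (C := 1) fun s _ => habs _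
    rw [sub_zero, abs_one, mul_one] at h1
    exact h1
  · -- (3)
    have h1 : ∀ s : ℝ, 0 ≤ s → s ≤ 1 → |h (Φ (s + ((j + 1 : ℕ) : ℝ)) y.2).1 - h (Φ (s + j) y'.2).1| ≤ L1 * R ^ (-(1 / 3) : ℝ) := by
      intro s hs0 hs1
      have h2 := hEEH R (s + j) L1 G Φ h y y' r1 hO hinv (hsm.of_le (by exact_mod_cast le_top)) hL1 (fun x hx => ?_) hst (by positivity) ?_
      · have e1 : s + ((j + 1 : ℕ) : ℝ) = s + j + 1 := by
          push_cast
          ring
        rw [e1]
        exact h2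
      · have h3 := hb1 1 le_rfl x hx
        rwa [norm_iteratedFDeriv_one] at h3
      · have h4 : (j : ℝ) ≤ A.n R := by exact_mod_cast Nat.lt_succ_iff.1 hj
        unfold Par.tu
        linarith
    have hi1 : IntervalIntegrable (fun s : ℝ => h (Φ (s + ((j + 1 : ℕ) : ℝ)) y.2).1) volume 0 1 := ((hcs y.2).comp (continuous_id.add continuous_const)).intervalIntegrable _ _
    have hi2 : IntervalIntegrable (fun s : ℝ => h (Φ (s + j) y'.2).1) volume 0 1 := ((hcs y'.2).comp (continuous_id.add continuous_const)).intervalIntegrable _ _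
    have h5 : gE Φ h (j + 1) y.2 - gE Φ h j y'.2 = ∫ s in (0 : ℝ)..1, (h (Φ (s + ((j + 1 : ℕ) : ℝ)) y.2).1 - h (Φ (s + j) y'.2).1) := by
      rw [intervalIntegral.integral_sub hi1 hi2]
      rfl
    rw [h5]
    have h6 := intervalIntegral.norm_integral_le_of_norm_le_const (a := (0 : ℝ)) (b := 1) (f := fun s : ℝ => h (Φ (s + ((j + 1 : ℕ) : ℝ)) y.2).1 - h (Φ (s + j) y'.2).1)
      (C := L1 * R ^ (-(1 / 3) : ℝ)) fun s hs => by
        rw [uIoc_of_le zero_le_one] at hs
        exact h1 s hs.1.le hs.2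
    rw [sub_zero, abs_one, mul_one] at h6
    exact h6.trans (ha R r4)
  · -- (4)
    obtain ⟨hFP, -⟩ := hEE2 R F G f u r3 hF hO.cls hu
    obtain ⟨-, hGW, -, -, -, hlin, hfin⟩ := hEYP d Γ G r0 2 R hO.cls.met
    obtain ⟨b, hb'⟩ := hFP.bdd
    have hν : IsFiniteMeasure ((mY Γ d).restrict (DT d {(1 : Γ)} ∩ GW Γ G r0 2 R)) := by
      refine ⟨?_⟩
      rw [Measure.restrict_apply_univ]
      have h1 := hlin fun _ => 1
      rw [setLIntegral_one, setLIntegral_one] at h1
      rw [h1]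
      exact hfin
    have hH : Measurable fun z : YS Γ d × ℝ => h (Φ (z.2 + ((0 : ℕ) : ℝ)) z.1.2).1 := by
      have h1 : Measurable fun z : YS Γ d × ℝ => (((z.2 + ((0 : ℕ) : ℝ)), z.1.2) : ℝ × P d) := (measurable_snd.add_const _).prodMk (hm2.comp measurable_fst)
      exact hfc.measurable.comp h1
    have h2 := EEA_fub ((mY Γ d).restrict (DT d {(1 : Γ)} ∩ GW Γ G r0 2 R)) (fun z : YS Γ d × ℝ => h (Φ (z.2 + ((0 : ℕ) : ℝ)) z.1.2).1) (fun y => ‖QF G χ ch A.z R u y‖ ^ 2)
      (∫ z in F, h z * ‖u z‖ ^ 2 ∂mv G) ((1 + L2) * R ^ (-(1 / 250) : ℝ) * nn G F u) (b ^ 2) hH (fun z => habs _) (hFP.meas.norm.pow_const 2)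
      (fun y => by
        rw [abs_of_nonneg (by positivity)]
        exact pow_le_pow_left₀ (norm_nonneg _) (hb' y) 2)
      (fun s hs0 hs1 => by
        have h3 := hEES R s L2 F G Φ f h u r2 hF hO hu hinv hsm h01 hL2 hb2 hs0 hs1
        have e1 : s + ((0 : ℕ) : ℝ) = s := by
          rw [Nat.cast_zero, add_zero]
        show |(∫ y in DT d {(1 : Γ)} ∩ GW Γ G r0 2 R, h (Φ (s + ((0 : ℕ) : ℝ)) y.2).1 * ‖QF G χ ch A.z R u y‖ ^ 2 ∂mY Γ d) - _| ≤ _
        rw [e1]
        exact h3)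
    refine le_trans h2 ?_
    have hnn : 0 ≤ nn G F u := integral_nonneg fun z => by positivity
    exact mul_le_mul_of_nonneg_right (hb R r5) hnn

end

end Pool.Agent.VD
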