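import Pool.Agent.helper55.VD.SpecE3

set_option autoImplicit false

open scoped ContDiff Topology InnerProductSpace ComplexConjugate ENNReal
open MeasureTheory Filter Set

namespace Pool.Agent.VD

noncomputable section

/-- one step of bounded time in a common chart near `K` -/
theorem EEG_step (hACNF : ACNF_stmt) (hASGF : ASGF_stmt) {d : ℕ} {Γ : Type} [Group Γ] [MulAction Γ (V d)] {K : Set (V d)} {k : ℝ} {B : ℕ → ℕ → ℝ}
    (hK : FdK Γ K) (r1 b : ℝ) (hb : ∀ x ∈ K, ‖x‖ ≤ b) : ∃ M : ℝ, 1 ≤ M ∧ ∀ (G : V d → V d →L[ℝ] V d) (Φ : ℝ → P d → P d) (p q : P d) (t : ℝ), OKA Γ K k B G Φ →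
      ‖p.1‖ ≤ r1 → ‖q.1‖ ≤ r1 → Ham G p ≤ 1 → Ham G q ≤ 1 → |t| ≤ 1 → ∃ κ : Γ, κ • (Φ t p).1 ∈ K ∧ dist (lft κ (Φ t p)) (lft κ (Φ t q)) ≤ M * dist p q := by
  obtain ⟨C1, hC1, h1⟩ := hACNF d Γ K k B r1 1 hK
  obtain ⟨-, -, C2, hC2, h2⟩ := hASGF d Γ K hK (max C1 b) 0
  refine ⟨C1 * C2, by nlinarith, fun G Φ p q t hO hp hq hHp hHq ht => ?_⟩
  obtain ⟨a1, a2, -, a3, -⟩ := h1 G Φ hO p t hp (by linarith) ht
  obtain ⟨b1, b2, -, -, -⟩ := h1 G Φ hO q t hq (by linarith) ht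
  have a4 := a3 q hq (by linarith)
  obtain ⟨κ, hκ⟩ := hK.cover (Φ t p).1
  have hS : κ ∈ SG Γ d (max C1 b) := ⟨(Φ t p).1, a1.trans (le_max_left _ _), (hb _ hκ).trans (le_max_right _ _)⟩
  obtain ⟨-, -, -, h3⟩ := h2 κ hS (Φ t p).1 (a1.trans (le_max_left _ _))
  obtain ⟨-, h4, -⟩ := h3 (Φ t p) (Φ t q) (a1.trans (le_max_left _ _)) (b1.trans (le_max_left _ _)) (a2.trans (le_max_left _ _)) (b2.trans (le_max_left _ _))
  refine ⟨κ, hκ, h4.trans ?_⟩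
  calc C2 * dist (Φ t p) (Φ t q) ≤ C2 * (C1 * dist p q) := mul_le_mul_of_nonneg_left a4 (by linarith)
    _ = C1 * C2 * dist p q := by ring

theorem EEG_proof (hACNF : ACNF_stmt) (hASGF : ASGF_stmt) (hALFX : ALFX_stmt) : EEG_stmt := by
  intro d Γ _ _ K k B r hK
  obtain ⟨b, hb⟩ : ∃ b : ℝ, ∀ x ∈ K, ‖x‖ ≤ b := hK.compact.isBounded.exists_norm_le
  obtain ⟨M, hM, hst⟩ := EEG_step (k := k) (B := B) hACNF hASGF hK (max r (b + 1)) b hb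
  have hM0 : 0 < M := by linarith
  have hM2 : M ≤ M ^ 2 := by nlinarith
  refine ⟨M ^ 2, hM.trans hM2, fun G Φ p q t s hO hp hq hHp hHq ht hs hCs => ?_⟩
  obtain ⟨-, -, lmul, -, lHam, leq, fHam, -⟩ := hALFX d Γ K k B G Φ hO
  have hs0 : 0 ≤ s := dist_nonneg.trans hs
  have hexp : ∀ n : ℕ, M ^ n ≤ Real.exp (M * n) := by
    intro n
    have e1 : M ≤ Real.exp M := by linarith [Real.add_one_le_exp M]
    calc M ^ n ≤ Real.exp M ^ n := pow_le_pow_left₀ hM0.le e1 n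
      _ = Real.exp (M * n) := by rw [← Real.exp_nat_mul, mul_comm]
  have hbd : ∀ n : ℕ, (n : ℝ) ≤ t → M ^ (n + 2) ≤ M ^ 2 * Real.exp (M ^ 2 * t) := by
    intro n hn
    rw [pow_add, mul_comm]
    refine mul_le_mul_of_nonneg_left ((hexp n).trans (Real.exp_le_exp.2 ?_)) (by positivity)
    exact mul_le_mul hM2 hn (Nat.cast_nonneg _) (by positivity)
  have hmain : ∀ n : ℕ, (n : ℝ) ≤ t → ∃ γ : Γ, γ • (Φ n p).1 ∈ K ∧ dist (lft γ (Φ n p)) (lft γ (Φ n q)) ≤ M ^ (n + 1) * s := by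
    intro n
    induction n with
    | zero =>
      intro _
      obtain ⟨κ, h1, h2⟩ := hst G Φ p q 0 hO (hp.trans (le_max_left _ _)) (hq.trans (le_max_left _ _)) hHp hHq (by simp)
      refine ⟨κ, by rw [Nat.cast_zero]; exact h1, ?_⟩
      rw [Nat.cast_zero, zero_add, pow_one]
      exact h2.trans (mul_le_mul_of_nonneg_left hs hM0.le)
    | succ n ih =>
      intro hn
      have hn' : (n : ℝ) ≤ t := by
        push_cast at hn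
        linarith
      obtain ⟨γ, h1, h2⟩ := ih hn'
      have h3 : M ^ (n + 1) * s ≤ 1 := by
        refine le_trans (mul_le_mul_of_nonneg_right ((pow_le_pow_right₀ hM (Nat.le_succ (n + 1))).trans (hbd n hn')) hs0) hCs
      have h4 : ‖(lft γ (Φ n p)).1‖ ≤ b := hb _ h1
      have h5 : ‖(lft γ (Φ n q)).1‖ ≤ b + 1 := by
        have e1 : dist (lft γ (Φ n p)).1 (lft γ (Φ n q)).1 ≤ 1 := (le_max_left _ _).trans (h2.trans h3)
        have e2 : ‖(lft γ (Φ n q)).1‖ ≤ ‖(lft γ (Φ n p)).1‖ + dist (lft γ (Φ n p)).1 (lft γ (Φ n q)).1 := by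
          rw [dist_eq_norm]
          have e3 := norm_sub_le (lft γ (Φ n p)).1 ((lft γ (Φ n p)).1 - (lft γ (Φ n q)).1)
          rwa [sub_sub_cancel] at e3
        linarith
      obtain ⟨κ, h6, h7⟩ := hst G Φ (lft γ (Φ n p)) (lft γ (Φ n q)) 1 hO ((h4.trans (by linarith)).trans (le_max_right _ _)) (h5.trans (le_max_right _ _))
        (by rw [lHam, fHam]; exact hHp) (by rw [lHam, fHam]; exact hHq) (by simp)
      have h8 : ∀ z : P d, Φ 1 (lft γ (Φ n z)) = lft γ (Φ ((n + 1 : ℕ) : ℝ) z) := by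
        intro z
        rw [leq, ← hO.flow.add]
        push_cast
        rw [add_comm (1 : ℝ)]
      rw [h8] at h6 h7
      rw [h8] at h7
      refine ⟨κ * γ, ?_, ?_⟩
      · rw [mul_smul]
        exact h6
      · rw [lmul, lmul]
        refine h7.trans ((mul_le_mul_of_nonneg_left h2 hM0.le).trans (le_of_eq ?_))
        ring
  have hfl : (⌊t⌋₊ : ℝ) ≤ t := Nat.floor_le ht
  obtain ⟨γ, h1, h2⟩ := hmain ⌊t⌋₊ hfl
  have h3 : M ^ (⌊t⌋₊ + 1) * s ≤ 1 :=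
    le_trans (mul_le_mul_of_nonneg_right ((pow_le_pow_right₀ hM (Nat.le_succ (⌊t⌋₊ + 1))).trans (hbd _ hfl)) hs0) hCs
  have h4 : ‖(lft γ (Φ ⌊t⌋₊ p)).1‖ ≤ b := hb _ h1
  have h5 : ‖(lft γ (Φ ⌊t⌋₊ q)).1‖ ≤ b + 1 := by
    have e1 : dist (lft γ (Φ ⌊t⌋₊ p)).1 (lft γ (Φ ⌊t⌋₊ q)).1 ≤ 1 := (le_max_left _ _).trans (h2.trans h3)
    have e2 : ‖(lft γ (Φ ⌊t⌋₊ q)).1‖ ≤ ‖(lft γ (Φ ⌊t⌋₊ p)).1‖ + dist (lft γ (Φ ⌊t⌋₊ p)).1 (lft γ (Φ ⌊t⌋₊ q)).1 := by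
      rw [dist_eq_norm]
      have e3 := norm_sub_le (lft γ (Φ ⌊t⌋₊ p)).1 ((lft γ (Φ ⌊t⌋₊ p)).1 - (lft γ (Φ ⌊t⌋₊ q)).1)
      rwa [sub_sub_cancel] at e3
    linarith
  obtain ⟨κ, h6, h7⟩ := hst G Φ (lft γ (Φ ⌊t⌋₊ p)) (lft γ (Φ ⌊t⌋₊ q)) (t - ⌊t⌋₊) hO ((h4.trans (by linarith)).trans (le_max_right _ _)) (h5.trans (le_max_right _ _))
    (by rw [lHam, fHam]; exact hHp) (by rw [lHam, fHam]; exact hHq) (by rw [abs_of_nonneg (by linarith)]; linarith [Nat.lt_floor_add_one t])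
  have h8 : ∀ z : P d, Φ (t - ⌊t⌋₊) (lft γ (Φ ⌊t⌋₊ z)) = lft γ (Φ t z) := by
    intro z
    rw [leq, ← hO.flow.add, sub_add_cancel]
  rw [h8] at h6 h7
  rw [h8] at h7
  refine ⟨κ * γ, ?_, ?_⟩
  · rw [mul_smul]
    exact h6
  · rw [lmul, lmul]
    refine h7.trans ((mul_le_mul_of_nonneg_left h2 hM0.le).trans ?_)
    calc M * (M ^ (⌊t⌋₊ + 1) * s) = M ^ (⌊t⌋₊ + 2) * s := by ring
      _ ≤ M ^ 2 * Real.exp (M ^ 2 * t) * s := mul_le_mul_of_nonneg_right (hbd _ hfl) hs0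

end

end Pool.Agent.VD
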