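import Pool.Agent.helper80.VD.SpecG

set_option autoImplicit false

open scoped ContDiff Topology InnerProductSpace
open MeasureTheory Filter Set

namespace Pool.Agent.VD

noncomputable section

/-- the derivative of `Chr G (X s) (A s) (B s)` -/
theorem GJC_chr (hGCH : GCH_stmt) {d : ℕ} (G : V d → V d →L[ℝ] V d) (hG : IsMetric G) {X A B : ℝ → V d} {x' a' b' : V d} {t : ℝ}
    (hX : HasDerivAt X x' t) (hA : HasDerivAt A a' t) (hB : HasDerivAt B b' t) :
    HasDerivAt (fun s => Chr G (X s) (A s) (B s)) (fderiv ℝ (fun y => Chr G y (A t) (B t)) (X t) x' + Chr G (X t) a' (B t) + Chr G (X t) (A t) b') t := by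
  obtain ⟨hsym, hlin, hK, -⟩ := hGCH d G hG
  have hd : ∀ P0 : V d × V d × V d, HasFDerivAt (fun q : V d × V d × V d => Chr G q.1 q.2.1 q.2.2) (fderiv ℝ (fun q : V d × V d × V d => Chr G q.1 q.2.1 q.2.2) P0) P0 :=
    fun P0 => (hK.differentiable (by simp) P0).hasFDerivAt
  have h1 : HasDerivAt (fun s => Chr G (X s) (A s) (B s)) (fderiv ℝ (fun q : V d × V d × V d => Chr G q.1 q.2.1 q.2.2) (X t, A t, B t) (x', a', b')) t := by
    have h2 := (hd (X t, A t, B t)).comp_hasDerivAt t (hX.prodMk (hA.prodMk hB))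
    exact h2
  have e0 : ((x', a', b') : V d × V d × V d) = (x', 0, 0) + ((0, a', 0) + (0, 0, b')) := by
    simp
  have e1 : fderiv ℝ (fun q : V d × V d × V d => Chr G q.1 q.2.1 q.2.2) (X t, A t, B t) (x', 0, 0) = fderiv ℝ (fun y => Chr G y (A t) (B t)) (X t) x' := by
    have h2 : HasFDerivAt (fun y : V d => ((y, A t, B t) : V d × V d × V d)) (ContinuousLinearMap.inl ℝ (V d) (V d × V d)) (X t) :=
      hasFDerivAt_prodMk_left (X t) (A t, B t)
    have h3 := ((hd (X t, A t, B t)).comp (X t) h2).fderiv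
    have h4 : fderiv ℝ (fun y => Chr G y (A t) (B t)) (X t) = (fderiv ℝ (fun q : V d × V d × V d => Chr G q.1 q.2.1 q.2.2) (X t, A t, B t)).comp (ContinuousLinearMap.inl ℝ (V d) (V d × V d)) := h3
    rw [h4]
    rfl
  have hline : ∀ (a e : V d), HasDerivAt (fun s : ℝ => a + s • e) e 0 := by
    intro a e
    have := ((hasDerivAt_id (0 : ℝ)).smul_const e).const_add a
    simpa using this
  have e2 : fderiv ℝ (fun q : V d × V d × V d => Chr G q.1 q.2.1 q.2.2) (X t, A t, B t) (0, a', 0) = Chr G (X t) a' (B t) := by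
    have h2 : HasDerivAt (fun s : ℝ => ((X t, A t + s • a', B t) : V d × V d × V d)) ((0, a', 0) : V d × V d × V d) 0 :=
      (hasDerivAt_const 0 (X t)).prodMk ((hline (A t) a').prodMk (hasDerivAt_const 0 (B t)))
    have h3 := (hd ((X t, A t + (0 : ℝ) • a', B t) : V d × V d × V d)).comp_hasDerivAt (0 : ℝ) h2
    rw [zero_smul, add_zero] at h3
    have h4 : HasDerivAt (fun s : ℝ => Chr G (X t) (A t + s • a') (B t)) (Chr G (X t) a' (B t)) 0 := by
      have h5 : (fun s : ℝ => Chr G (X t) (A t + s • a') (B t)) = fun s : ℝ => Chr G (X t) (A t) (B t) + s • Chr G (X t) a' (B t) := by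
        funext s
        exact hlin _ _ _ _ _
      rw [h5]
      exact hline _ _
    exact HasDerivAt.unique h3 h4
  have e3 : fderiv ℝ (fun q : V d × V d × V d => Chr G q.1 q.2.1 q.2.2) (X t, A t, B t) (0, 0, b') = Chr G (X t) (A t) b' := by
    have h2 : HasDerivAt (fun s : ℝ => ((X t, A t, B t + s • b') : V d × V d × V d)) ((0, 0, b') : V d × V d × V d) 0 :=
      (hasDerivAt_const 0 (X t)).prodMk ((hasDerivAt_const 0 (A t)).prodMk (hline (B t) b'))
    have h3 := (hd ((X t, A t, B t + (0 : ℝ) • b') : V d × V d × V d)).comp_hasDerivAt (0 : ℝ) h2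
    rw [zero_smul, add_zero] at h3
    have h4 : HasDerivAt (fun s : ℝ => Chr G (X t) (A t) (B t + s • b')) (Chr G (X t) (A t) b') 0 := by
      have h5 : (fun s : ℝ => Chr G (X t) (A t) (B t + s • b')) = fun s : ℝ => Chr G (X t) (A t) (B t) + s • Chr G (X t) (A t) b' := by
        funext s
        rw [hsym, hlin, hsym (X t) (B t), hsym (X t) b']
      rw [h5]
      exact hline _ _
    exact HasDerivAt.unique h3 h4
  rw [e0, map_add, map_add, e1, e2, e3, ← add_assoc] at h1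
  exact h1

/-- the derivative of `fderiv f (a s) (b s)` -/
theorem GJC_dd {E F : Type} [NormedAddCommGroup E] [NormedSpace ℝ E] [NormedAddCommGroup F] [NormedSpace ℝ F] (f : E → F) (hf : ContDiff ℝ ∞ f)
    {a b : ℝ → E} {a' b' : E} {t : ℝ} (ha : HasDerivAt a a' t) (hb : HasDerivAt b b' t) :
    HasDerivAt (fun s => fderiv ℝ f (a s) (b s)) (fderiv ℝ (fderiv ℝ f) (a t) a' (b t) + fderiv ℝ f (a t) b') t := by
  have h1 : ContDiff ℝ ∞ (fderiv ℝ f) := hf.fderiv_right (by simp)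
  have h2 : HasDerivAt (fun s => fderiv ℝ f (a s)) (fderiv ℝ (fderiv ℝ f) (a t) a') t :=
    (h1.differentiable (by simp) (a t)).hasFDerivAt.comp_hasDerivAt t ha
  exact h2.clm_apply hb

theorem GJC_proof (hGIN : GIN_stmt) (hGXH : GXH_stmt) (hGCH : GCH_stmt) (hGVL : GVL_stmt) : GJC_stmt := by
  intro d G hG c q t ⟨hc, hq⟩
  obtain ⟨hinv, -⟩ := hGIN d G hG
  obtain ⟨-, hXs, -⟩ := hGXH d G hG
  obtain ⟨hsym, hlin, -, -, -, -, -, hcomp⟩ := hGCH d G hG
  obtain ⟨-, hv1, -, hv2, -⟩ := hGVL d G hG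
  have hvs : ContDiff ℝ ∞ (vel G) := contDiff_fst.comp hXs
  have hXd : ∀ p, HasFDerivAt (XH G) (fderiv ℝ (XH G) p) p := fun p => (hXs.differentiable (by simp) p).hasFDerivAt
  have hvd : ∀ p, HasFDerivAt (vel G) (fderiv ℝ (vel G) p) p := fun p => (hvs.differentiable (by simp) p).hasFDerivAt
  have hfst : ∀ p Q : P d, (fderiv ℝ (XH G) p Q).1 = fderiv ℝ (vel G) p Q := by
    intro p Q
    have h1 : HasFDerivAt (vel G) ((ContinuousLinearMap.fst ℝ (V d) (V d)).comp (fderiv ℝ (XH G) p)) p := (hXd p).fst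
    rw [h1.fderiv]
    rfl
  -- the first component
  have hq1 : HasDerivAt (fun s => (q s).1) (fderiv ℝ (vel G) (c t) (q t)) t := by
    have h1 : HasDerivAt (fun s => (q s).1) (fderiv ℝ (XH G) (c t) (q t)).1 t :=
      (ContinuousLinearMap.fst ℝ (V d) (V d)).hasFDerivAt.comp_hasDerivAt t hq
    rwa [hfst] at h1
  have hc1 : HasDerivAt (fun s => (c s).1) (vel G (c t)) t :=
    (ContinuousLinearMap.fst ℝ (V d) (V d)).hasFDerivAt.comp_hasDerivAt t hc
  refine ⟨by rw [← hv1]; exact hq1, ?_⟩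
  -- (a)
  have ha : fderiv ℝ (fderiv ℝ (vel G)) (c t) (q t) (XH G (c t)) + fderiv ℝ (vel G) (c t) (fderiv ℝ (XH G) (c t) (q t)) =
      -(fderiv ℝ (fun y => Chr G y (vel G (c t)) (vel G (c t))) (c t).1 (q t).1 + Chr G (c t).1 (fderiv ℝ (vel G) (c t) (q t)) (vel G (c t)) +
        Chr G (c t).1 (vel G (c t)) (fderiv ℝ (vel G) (c t) (q t))) := by
    have hline : HasDerivAt (fun s : ℝ => c t + s • q t) (q t) 0 := by
      have := ((hasDerivAt_id (0 : ℝ)).smul_const (q t)).const_add (c t)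
      simpa using this
    have hX0 : HasDerivAt (fun s : ℝ => XH G (c t + s • q t)) (fderiv ℝ (XH G) (c t + (0 : ℝ) • q t) (q t)) 0 := (hXd _).comp_hasDerivAt (0 : ℝ) hline
    have hV0 : HasDerivAt (fun s : ℝ => vel G (c t + s • q t)) (fderiv ℝ (vel G) (c t + (0 : ℝ) • q t) (q t)) 0 := (hvd _).comp_hasDerivAt (0 : ℝ) hline
    have hx0 : HasDerivAt (fun s : ℝ => (c t + s • q t).1) (q t).1 0 := (ContinuousLinearMap.fst ℝ (V d) (V d)).hasFDerivAt.comp_hasDerivAt (0 : ℝ) hline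
    have h1 := GJC_dd (vel G) hvs hline hX0
    have h2 := (GJC_chr hGCH G hG hx0 hV0 hV0).neg
    have h3 : (fun s : ℝ => fderiv ℝ (vel G) (c t + s • q t) (XH G (c t + s • q t))) = fun s : ℝ => -Chr G (c t + s • q t).1 (vel G (c t + s • q t)) (vel G (c t + s • q t)) := by
      funext s
      exact (hv2 _).2
    rw [h3] at h1
    have h4 := HasDerivAt.unique h1 h2
    simpa only [zero_smul, add_zero] using h4
  -- (b)
  have hsy : fderiv ℝ (fderiv ℝ (vel G)) (c t) (q t) (XH G (c t)) = fderiv ℝ (fderiv ℝ (vel G)) (c t) (XH G (c t)) (q t) := by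
    have h1 : IsSymmSndFDerivAt ℝ (vel G) (c t) := (hvs.contDiffAt).isSymmSndFDerivAt (by rw [minSmoothness_of_isRCLikeNormedField]; exact WithTop.coe_le_coe.2 le_top)
    exact h1 _ _
  have hb := GJC_dd (vel G) hvs hc hq
  rw [← hsy, ha] at hb
  -- (c)
  have hv' : HasDerivAt (fun s => vel G (c s)) (-Chr G (c t).1 (vel G (c t)) (vel G (c t))) t := by
    have h1 := (hvd (c t)).comp_hasDerivAt t hc
    rw [(hv2 (c t)).2] at h1
    exact h1
  have hC := GJC_chr hGCH G hG hc1 hv' hq1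
  have hz := hb.add hC
  have hzf : (fun s => IG G (c s).1 (Wc G (c s) (q s))) = (fun s => fderiv ℝ (vel G) (c s) (q s)) + fun s => Chr G (c s).1 (vel G (c s)) (q s).1 := by
    funext s
    show _ = fderiv ℝ (vel G) (c s) (q s) + Chr G (c s).1 (vel G (c s)) (q s).1
    rw [hv1, sub_add_cancel]
  rw [← hzf] at hz
  -- (d)
  have hGd : HasDerivAt (fun s => G (c s).1) (fderiv ℝ G (c t).1 (vel G (c t))) t :=
    (hG.smooth.differentiable (by simp) (c t).1).hasFDerivAt.comp_hasDerivAt t hc1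
  have hW := hGd.clm_apply hz
  have hWf : (fun s => G (c s).1 (IG G (c s).1 (Wc G (c s) (q s)))) = fun s => Wc G (c s) (q s) := by
    funext s
    exact (hinv _ _).2
  rw [hWf] at hW
  refine hW.congr_deriv ?_
  have hadd : ∀ a b w : V d, Chr G (c t).1 (a + b) w = Chr G (c t).1 a w + Chr G (c t).1 b w := by
    intro a b w
    have := hlin (c t).1 a b w 1
    rwa [one_smul, one_smul] at this
  have hneg : ∀ b w : V d, Chr G (c t).1 (-b) w = -Chr G (c t).1 b w := by
    intro b w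
    have h0 : Chr G (c t).1 0 w = 0 := by
      have := hadd 0 0 w
      rw [add_zero] at this
      exact left_eq_add.1 this
    have := hadd b (-b) w
    rw [add_neg_cancel, h0] at this
    exact (neg_eq_of_add_eq_zero_right this.symm).symm
  have hcomp' := hcomp (c t).1 (vel G (c t)) (IG G (c t).1 (Wc G (c t) (q t)))
  rw [(hinv _ _).2] at hcomp'
  rw [hcomp']
  have hDs : (fun y => Chr G y (vel G (c t)) (q t).1) = fun y => Chr G y (q t).1 (vel G (c t)) := by
    funext y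
    exact hsym _ _ _
  rw [hDs]
  have hu : fderiv ℝ (vel G) (c t) (q t) = IG G (c t).1 (Wc G (c t) (q t)) + -Chr G (c t).1 (vel G (c t)) (q t).1 := by
    rw [hv1, sub_eq_add_neg]
  have hCu : Chr G (c t).1 (fderiv ℝ (vel G) (c t) (q t)) (vel G (c t)) =
      Chr G (c t).1 (vel G (c t)) (IG G (c t).1 (Wc G (c t) (q t))) - Chr G (c t).1 (vel G (c t)) (Chr G (c t).1 (q t).1 (vel G (c t))) := by
    rw [hu, hadd, hneg, hsym (c t).1 (IG G (c t).1 (Wc G (c t) (q t))), hsym (c t).1 (Chr G (c t).1 (vel G (c t)) (q t).1), hsym (c t).1 (vel G (c t)) (q t).1]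
    abel
  have hCu' : Chr G (c t).1 (vel G (c t)) (fderiv ℝ (vel G) (c t) (q t)) = Chr G (c t).1 (fderiv ℝ (vel G) (c t) (q t)) (vel G (c t)) := hsym _ _ _
  have hzz : -(fderiv ℝ (fun y => Chr G y (vel G (c t)) (vel G (c t))) (c t).1 (q t).1 + Chr G (c t).1 (fderiv ℝ (vel G) (c t) (q t)) (vel G (c t)) +
        Chr G (c t).1 (vel G (c t)) (fderiv ℝ (vel G) (c t) (q t))) +
      (fderiv ℝ (fun y => Chr G y (q t).1 (vel G (c t))) (c t).1 (vel G (c t)) + Chr G (c t).1 (-Chr G (c t).1 (vel G (c t)) (vel G (c t))) (q t).1 +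
        Chr G (c t).1 (vel G (c t)) (fderiv ℝ (vel G) (c t) (q t))) =
      -Chr G (c t).1 (vel G (c t)) (IG G (c t).1 (Wc G (c t) (q t))) - Riem G (c t).1 (q t).1 (vel G (c t)) (vel G (c t)) := by
    rw [hCu', hCu, hneg, hsym (c t).1 (Chr G (c t).1 (vel G (c t)) (vel G (c t)))]
    unfold Riem
    abel
  rw [hzz, map_sub, map_neg]
  abel

end

end Pool.Agent.VD
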