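import Pool.Agent.helper80.VD.SpecF

set_option autoImplicit false

open scoped ContDiff Topology InnerProductSpace
open MeasureTheory Filter Set

namespace Pool.Agent.VD

noncomputable section

theorem GNR_op {E : Type} [NormedAddCommGroup E] [InnerProductSpace ℝ E] (A H : E →L[ℝ] E) (b : ℝ) (hb : 1 ≤ b) (hAH : ∀ u, A (H u) = u)
    (hlo : ∀ u, ‖u‖ ^ 2 ≤ b * ⟪A u, u⟫_ℝ) (hup : ‖A‖ ≤ b) (u : E) :
    0 ≤ ⟪H u, u⟫_ℝ ∧ ‖H u‖ ^ 2 ≤ b * ⟪H u, u⟫_ℝ ∧ ‖u‖ ^ 2 ≤ b ^ 3 * ⟪H u, u⟫_ℝ ∧ ⟪H u, u⟫_ℝ ≤ b * ‖u‖ ^ 2 ∧ ⟪A u, u⟫_ℝ ≤ b * ‖u‖ ^ 2 := by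
  have hb0 : 0 < b := by linarith
  have h1 : ‖H u‖ ^ 2 ≤ b * ⟪H u, u⟫_ℝ := by
    have := hlo (H u)
    rwa [hAH, real_inner_comm] at this
  have h0 : 0 ≤ ⟪H u, u⟫_ℝ := by
    by_contra hc
    push Not at hc
    have := mul_neg_of_pos_of_neg hb0 hc
    have := sq_nonneg ‖H u‖
    linarith
  have h2 : ‖u‖ ≤ b * ‖H u‖ := by
    have e1 := (A.le_opNorm (H u)).trans (mul_le_mul_of_nonneg_right hup (norm_nonneg _))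
    rwa [hAH] at e1
  have h3 : ‖u‖ ^ 2 ≤ b ^ 3 * ⟪H u, u⟫_ℝ := by
    have e1 : ‖u‖ ^ 2 ≤ (b * ‖H u‖) ^ 2 := pow_le_pow_left₀ (norm_nonneg _) h2 2
    have e2 : b ^ 2 * ‖H u‖ ^ 2 ≤ b ^ 2 * (b * ⟪H u, u⟫_ℝ) := mul_le_mul_of_nonneg_left h1 (by positivity)
    calc ‖u‖ ^ 2 ≤ (b * ‖H u‖) ^ 2 := e1
      _ = b ^ 2 * ‖H u‖ ^ 2 := by ring
      _ ≤ b ^ 2 * (b * ⟪H u, u⟫_ℝ) := e2
      _ = b ^ 3 * ⟪H u, u⟫_ℝ := by ring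
  have h4 : ⟪H u, u⟫_ℝ ≤ ‖H u‖ * ‖u‖ := real_inner_le_norm _ _
  have h5 : ‖H u‖ ≤ b * ‖u‖ := by
    by_cases hz : ‖H u‖ = 0
    · rw [hz]
      positivity
    · have hp : 0 < ‖H u‖ := lt_of_le_of_ne (norm_nonneg _) (Ne.symm hz)
      refine le_of_mul_le_mul_left ?_ hp
      calc ‖H u‖ * ‖H u‖ = ‖H u‖ ^ 2 := by ring
        _ ≤ b * ⟪H u, u⟫_ℝ := h1
        _ ≤ b * (‖H u‖ * ‖u‖) := mul_le_mul_of_nonneg_left h4 hb0.le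
        _ = ‖H u‖ * (b * ‖u‖) := by ring
  have h6 : ⟪H u, u⟫_ℝ ≤ b * ‖u‖ ^ 2 := by
    refine h4.trans ((mul_le_mul_of_nonneg_right h5 (norm_nonneg _)).trans (le_of_eq (by ring)))
  have h7 : ⟪A u, u⟫_ℝ ≤ b * ‖u‖ ^ 2 := by
    refine (real_inner_le_norm _ _).trans ?_
    have e1 := (A.le_opNorm u).trans (mul_le_mul_of_nonneg_right hup (norm_nonneg _))
    exact (mul_le_mul_of_nonneg_right e1 (norm_nonneg _)).trans (le_of_eq (by ring))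
  exact ⟨h0, h1, h3, h6, h7⟩

/-- square roots -/
theorem GNR_sq {a q c C : ℝ} (hq : 0 ≤ q) (hc : 1 ≤ C) (hcC : c ≤ C) (h : a ^ 2 ≤ c * q) : a ≤ C * Real.sqrt q := by
  have h1 : a ^ 2 ≤ (C * Real.sqrt q) ^ 2 := by
    rw [mul_pow, Real.sq_sqrt hq]
    refine h.trans (mul_le_mul_of_nonneg_right (hcC.trans ?_) hq)
    nlinarith
  exact le_of_sq_le_sq h1 (mul_nonneg (by linarith) (Real.sqrt_nonneg _))

theorem GNR_proof (hGIN : GIN_stmt) : GNR_stmt := by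
  intro d B m
  have hb : (1 : ℝ) ≤ max (B m 0) 1 := le_max_right _ _
  have hb3 : max (B m 0) 1 ≤ max (B m 0) 1 ^ 3 := by nlinarith [mul_nonneg (by linarith : (0 : ℝ) ≤ max (B m 0) 1 - 1) (by linarith : (0 : ℝ) ≤ max (B m 0) 1), sq_nonneg (max (B m 0) 1)]
  refine ⟨max (B m 0) 1 ^ 3, hb.trans hb3, fun G hG hlo hbd p hp => ?_⟩
  obtain ⟨hinv, -⟩ := hGIN d G hG
  have hposG : ∀ u : V d, 0 ≤ ⟪G p.1 u, u⟫_ℝ := by
    intro u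
    by_cases hu : u = 0
    · rw [hu, inner_zero_right]
    · exact (hG.pos p.1 u hu).le
  have hlo' : ∀ u : V d, ‖u‖ ^ 2 ≤ max (B m 0) 1 * ⟪G p.1 u, u⟫_ℝ := fun u =>
    (hlo m p.1 u hp).trans (mul_le_mul_of_nonneg_right (le_max_left _ _) (hposG u))
  have hup : ‖G p.1‖ ≤ max (B m 0) 1 := by
    have h1 := hbd m 0 p.1 hp
    rw [norm_iteratedFDeriv_zero] at h1
    exact h1.trans (le_max_left _ _)
  have hop := GNR_op (G p.1) (IG G p.1) (max (B m 0) 1) hb (fun u => (hinv p.1 u).2) hlo' hup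
  obtain ⟨q0, q1, q2, q3, -⟩ := hop p.2
  refine ⟨?_, ?_, ?_, fun u => ?_⟩
  · exact GNR_sq q0 (hb.trans hb3) le_rfl q2
  · unfold nrm
    refine Real.sqrt_le_iff.2 ⟨mul_nonneg (by linarith) (norm_nonneg _), ?_⟩
    rw [mul_pow]
    refine q3.trans (mul_le_mul_of_nonneg_right (hb3.trans ?_) (sq_nonneg _))
    nlinarith
  · exact GNR_sq q0 (hb.trans hb3) hb3 q1
  · obtain ⟨-, -, r2, r3, r4⟩ := hop u
    refine ⟨(hlo' u).trans (mul_le_mul_of_nonneg_right hb3 (hposG u)), r4.trans (mul_le_mul_of_nonneg_right hb3 (sq_nonneg _)), r2,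
      r3.trans (mul_le_mul_of_nonneg_right hb3 (sq_nonneg _))⟩

end

end Pool.Agent.VD
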