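import Pool.Agent.helper11.VD.SpecC

set_option autoImplicit false

open scoped ContDiff Topology InnerProductSpace ENNReal ComplexConjugate
open MeasureTheory Filter Set

namespace Pool.Agent.VD

open Pool.Agent.VQ (PS)

noncomputable section

variable {d : ℕ}

theorem PSY_disc (Γ : Type) : @DiscreteMeasurableSpace Γ ⊤ := @DiscreteMeasurableSpace.mk Γ ⊤ fun _ => MeasurableSpace.measurableSet_top

/-- the index with the chart `γ` -/
def PSY_mk {Γ : Type} (γ : Γ) (p : P d) : YS Γ d := (γ, p)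

theorem PSY_ind {Γ : Type} (s : Set (YS Γ d)) (f : YS Γ d → ENNReal) (y : YS Γ d) (h : y ∈ s) : s.indicator f y = f y := indicator_of_mem h f

theorem PSY_ind0 {Γ : Type} (s : Set (YS Γ d)) (f : YS Γ d → ENNReal) (y : YS Γ d) (h : y ∉ s) : s.indicator f y = 0 := indicator_of_notMem h f

theorem PSY_m1 (Γ : Type) [Countable Γ] (Z : Type) [MeasurableSpace Z] (f : YS Γ d → Z) : Measurable f ↔ ∀ γ : Γ, Measurable fun p : P d => f (γ, p) := by
  let _ : MeasurableSpace Γ := ⊤
  have hd : DiscreteMeasurableSpace Γ := PSY_disc Γ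
  constructor
  · intro h γ
    have h1 : Measurable (fun p : P d => ((γ, p) : Γ × P d)) := measurable_prodMk_left
    exact h.comp h1
  · intro h
    exact measurable_from_prod_countable_right (α := Γ) (β := P d) (f := f) h

theorem PSY_m2 (Γ : Type) [Countable Γ] (Z : Type) [MeasurableSpace Z] (f : YS Γ d → YS Γ d → Z) :
    Measurable (Function.uncurry f) ↔ ∀ γ γ' : Γ, Measurable fun q : P d × P d => f (γ, q.1) (γ', q.2) := by
  let _ : MeasurableSpace Γ := ⊤
  have hd : DiscreteMeasurableSpace Γ := PSY_disc Γ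
  constructor
  · intro h γ γ'
    have h1 : Measurable (fun q : P d × P d => (((γ, q.1), (γ', q.2)) : (Γ × P d) × (Γ × P d))) :=
      (measurable_const.prodMk measurable_fst).prodMk (measurable_const.prodMk measurable_snd)
    exact h.comp h1
  · intro h
    have h1 : Measurable (fun z : (Γ × Γ) × (P d × P d) => f (z.1.1, z.2.1) (z.1.2, z.2.2)) :=
      measurable_from_prod_countable_right fun γ => h γ.1 γ.2
    have h2 : Measurable (fun y : (Γ × P d) × (Γ × P d) => (((y.1.1, y.2.1), (y.1.2, y.2.2)) : (Γ × Γ) × (P d × P d))) :=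
      ((measurable_fst.comp measurable_fst).prodMk (measurable_fst.comp measurable_snd)).prodMk
        ((measurable_snd.comp measurable_fst).prodMk (measurable_snd.comp measurable_snd))
    exact h1.comp h2

theorem PSY_eq (Γ : Type) [Countable Γ] (W : Set (P d)) :
    mWW Γ W = (@Measure.prod Γ (P d) ⊤ inferInstance (@Measure.count Γ ⊤) (volume.restrict W) : @Measure (YS Γ d) (instMSYS Γ)) := by
  let _ : MeasurableSpace Γ := ⊤
  have hd : DiscreteMeasurableSpace Γ := PSY_disc Γ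
  have h := Measure.prod_restrict (μ := (Measure.count : Measure Γ)) (ν := (volume : Measure (P d))) univ W
  rw [Measure.restrict_univ] at h
  have h2 : (univ ×ˢ W : Set (Γ × P d)) = {y : Γ × P d | y.2 ∈ W} := by
    ext y
    exact ⟨fun h => h.2, fun h => ⟨trivial, h⟩⟩
  rw [h2] at h
  exact h.symm

theorem PSY_lin (Γ : Type) [Countable Γ] (W : Set (P d)) (f : YS Γ d → ENNReal) (hf : Measurable f) :
    ∫⁻ y, f y ∂mWW Γ W = ∑' γ : Γ, ∫⁻ p in W, f (γ, p) := by
  rw [PSY_eq]
  let _ : MeasurableSpace Γ := ⊤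
  have hd : DiscreteMeasurableSpace Γ := PSY_disc Γ
  have h1 : ∫⁻ y, f y ∂((Measure.count : Measure Γ).prod (volume.restrict W)) = ∫⁻ γ : Γ, (∫⁻ p in W, f (γ, p)) ∂Measure.count :=
    lintegral_prod f hf.aemeasurable
  exact h1.trans (lintegral_count _)

theorem PSY_DT (Γ : Type) [Countable Γ] (T : Set Γ) : MeasurableSet (DT d T) := by
  let _ : MeasurableSpace Γ := ⊤
  have h1 : MeasurableSet ((fun y : Γ × P d => y.1) ⁻¹' T) := measurable_fst (MeasurableSpace.measurableSet_top)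
  exact h1

theorem PSY_lin1 (Γ : Type) [Group Γ] [Countable Γ] (W : Set (P d)) (f : YS Γ d → ENNReal) (hf : Measurable f) :
    ∫⁻ y in DT d {1}, f y ∂mWW Γ W = ∫⁻ p in W, f ((1 : Γ), p) := by
  classical
  rw [← lintegral_indicator (PSY_DT Γ {1}), PSY_lin Γ W _ (hf.indicator (PSY_DT Γ {1})), tsum_eq_single (1 : Γ) fun γ hγ => ?_]
  · exact lintegral_congr fun p => PSY_ind (DT d {1}) f (PSY_mk 1 p) rfl
  · refine (lintegral_congr (g := fun _ => 0) fun p => PSY_ind0 (DT d {1}) f (PSY_mk γ p) fun h => hγ h).trans lintegral_zero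

/-- the restriction to the chart `1` -/
theorem PSY_map (Γ : Type) [Group Γ] [Countable Γ] (W : Set (P d)) :
    Measurable (PSY_mk (1 : Γ) : P d → YS Γ d) ∧ (mWW Γ W).restrict (DT d {1}) = (volume.restrict W).map (PSY_mk (1 : Γ)) := by
  have hm : Measurable (PSY_mk (1 : Γ) : P d → YS Γ d) := (PSY_m1 Γ (YS Γ d) (fun y => y)).1 measurable_id 1
  refine ⟨hm, ?_⟩
  ext s hs
  rw [Measure.map_apply hm hs, ← lintegral_indicator_one hs, PSY_lin1 Γ W _ (measurable_one.indicator hs), ← lintegral_indicator_one (hm hs)]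
  rfl

theorem PSY_proof : PSY_stmt := by
  intro d Γ _ W L hΓ hW hWf hL1 hLi hLm hLf
  classical
  have hinv : ∀ x y z : Γ, (x * y)⁻¹ * (x * z) = y⁻¹ * z := fun x y z => by group
  have hfl : ∀ T : ℝ, {γ : Γ | (L γ : ℝ) ≤ T}.Finite := fun T => (hLf ⌊T⌋₊).subset fun γ hγ => Nat.le_floor hγ
  have hD1 : mWW Γ W (DT d ({1} : Set Γ)) = volume W := by
    have h1 := PSY_lin1 Γ W (fun _ => 1) measurable_const
    rw [setLIntegral_one, setLIntegral_one] at h1
    exact h1
  have hact : ∀ γ : Γ, Measurable (fun y : YS Γ d => γ • y) := by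
    intro γ
    rw [PSY_m1]
    intro κ
    exact (PSY_m1 Γ (YS Γ d) (fun y => y)).1 measurable_id (γ * κ)
  refine ⟨?_, fun Z _ f => PSY_m1 Γ Z f, fun Z _ f => PSY_m2 Γ Z f, fun f hf => ⟨PSY_lin Γ W f hf, PSY_lin1 Γ W f hf⟩, fun f hf => ?_, hD1⟩
  · refine { cnt := hΓ, sf := ?_, act := fun γ => ⟨hact γ, ?_⟩, uniq := ?_, meas := PSY_DT Γ {1}, fin := ?_, dm := ?_, d0 := ?_, ds := ?_, dt := ?_, di := ?_, vol := ?_, fc := ?_ }
    · rw [PSY_eq]
      let _ : MeasurableSpace Γ := ⊤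
      have hd : DiscreteMeasurableSpace Γ := PSY_disc Γ
      exact (inferInstance : SigmaFinite ((Measure.count : Measure Γ).prod ((volume : Measure (P d)).restrict W)))
    · ext s hs
      rw [Measure.map_apply (hact γ) hs, ← lintegral_indicator_one hs, ← lintegral_indicator_one (hact γ hs), PSY_lin Γ W _ (measurable_one.indicator hs),
        PSY_lin Γ W _ (measurable_one.indicator (hact γ hs))]
      exact (Equiv.mulLeft γ).tsum_eq fun κ => ∫⁻ p in W, s.indicator 1 ((κ, p) : YS Γ d)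
    · intro y
      refine ⟨y.1⁻¹, ?_, fun γ hγ => ?_⟩
      · show y.1⁻¹ * y.1 = 1
        exact inv_mul_cancel _
      · have h1 : γ * y.1 = 1 := hγ
        exact eq_inv_of_mul_eq_one_left h1
    · rw [hD1]
      exact hWf
    · exact (PSY_m2 Γ ℝ (dYS L)).2 fun γ γ' => (measurable_const : Measurable fun _ : P d × P d => (L (γ⁻¹ * γ') : ℝ))
    · exact fun x y => Nat.cast_nonneg _
    · intro x y
      have h1 : L (x.1⁻¹ * y.1) = L (y.1⁻¹ * x.1) := by
        rw [← hLi (x.1⁻¹ * y.1)]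
        congr 1
        group
      unfold dYS
      rw [h1]
    · intro x y z
      have h1 : L (x.1⁻¹ * z.1) ≤ L (x.1⁻¹ * y.1) + L (y.1⁻¹ * z.1) := by
        have h2 : x.1⁻¹ * z.1 = (x.1⁻¹ * y.1) * (y.1⁻¹ * z.1) := by group
        rw [h2]
        exact hLm _ _
      show (L (x.1⁻¹ * z.1) : ℝ) ≤ (L (x.1⁻¹ * y.1) : ℝ) + (L (y.1⁻¹ * z.1) : ℝ)
      exact_mod_cast h1
    · intro γ x y
      show (L ((γ * x.1)⁻¹ * (γ * y.1)) : ℝ) = (L (x.1⁻¹ * y.1) : ℝ)
      rw [hinv]
    · intro T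
      refine ⟨(((hfl T).toFinset.card : ENNReal) * volume W).toReal, fun x => ?_⟩
      have hfin : ((hfl T).toFinset.card : ENNReal) * volume W ≠ ⊤ := ENNReal.mul_ne_top (ENNReal.natCast_ne_top _) hWf.ne
      rw [ENNReal.ofReal_toReal hfin]
      have hs : MeasurableSet {y : YS Γ d | dYS L x y ≤ T} := by
        have h1 : Measurable (fun y : YS Γ d => dYS L x y) := (PSY_m1 Γ ℝ _).2 fun γ => (measurable_const : Measurable fun _ : P d => (L (x.1⁻¹ * γ) : ℝ))
        exact h1 measurableSet_Iic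
      rw [← lintegral_indicator_one hs, PSY_lin Γ W _ (measurable_one.indicator hs)]
      rw [← (Equiv.mulLeft x.1).tsum_eq]
      have h2 : ∀ κ : Γ, ∫⁻ p in W, {y : YS Γ d | dYS L x y ≤ T}.indicator (1 : YS Γ d → ENNReal) ((Equiv.mulLeft x.1 κ, p) : YS Γ d) =
          if κ ∈ (hfl T).toFinset then volume W else 0 := by
        intro κ
        have h3 : ∀ p : P d, ((Equiv.mulLeft x.1 κ, p) : YS Γ d) ∈ {y : YS Γ d | dYS L x y ≤ T} ↔ κ ∈ (hfl T).toFinset := by
          intro p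
          rw [(hfl T).mem_toFinset]
          show (L (x.1⁻¹ * (x.1 * κ)) : ℝ) ≤ T ↔ (L κ : ℝ) ≤ T
          rw [inv_mul_cancel_left]
        split_ifs with hκ
        · rw [← setLIntegral_one]
          exact lintegral_congr fun p => PSY_ind _ _ (PSY_mk (Equiv.mulLeft x.1 κ) p) ((h3 p).2 hκ)
        · rw [← lintegral_zero (μ := volume.restrict W)]
          exact lintegral_congr fun p => PSY_ind0 _ _ (PSY_mk (Equiv.mulLeft x.1 κ) p) fun h => hκ ((h3 p).1 h)
      rw [tsum_congr h2, tsum_eq_sum (s := (hfl T).toFinset) fun κ hκ => if_neg hκ, Finset.sum_congr rfl fun κ hκ => if_pos hκ, Finset.sum_const, nsmul_eq_mul]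
    · intro T
      refine ⟨{γ : Γ | (L γ : ℝ) ≤ T}.ncard, fun x y => ?_⟩
      have hinj : Function.Injective fun γ : Γ => x.1⁻¹ * (γ * y.1) := fun a b hab => mul_right_cancel (mul_left_cancel hab)
      have h1 : {γ : Γ | dYS L x (γ • y) ≤ T} = (fun γ : Γ => x.1⁻¹ * (γ * y.1)) ⁻¹' {γ : Γ | (L γ : ℝ) ≤ T} := rfl
      rw [h1]
      refine ⟨(hfl T).preimage hinj.injOn, ?_⟩
      exact Set.ncard_le_ncard_of_injOn _ (fun γ hγ => hγ) hinj.injOn (hfl T)
  · obtain ⟨hm, he⟩ := PSY_map Γ W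
    rw [he, integral_map hm.aemeasurable hf.aestronglyMeasurable]
    rfl

end

end Pool.Agent.VD
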